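import Pool.Agent.Helper92.AH.Defs

/-!
# Module MAINK: the theorem for constant `l ≥ 2`
-/

set_option autoImplicit false

namespace Pool.Agent.Helper92.AH

open MvPolynomial

/-- powers of the Frobenius map as algebra homomorphisms -/
theorem maink_frob (F K : Type) [Field F] [Finite F] [Field K] [Algebra F K] (n : ℕ) :
    ∃ φ : K →ₐ[F] K, ∀ z, φ z = z ^ (Nat.card F ^ n) := by
  haveI : Fintype F := Fintype.ofFinite F
  refine ⟨FiniteField.frobeniusAlgHom F K ^ n, fun z => ?_⟩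
  rw [AlgHom.coe_pow, FiniteField.coe_frobeniusAlgHom, pow_iterate, Nat.card_eq_fintype_card]

/-- evaluation commutes with the coordinatewise Frobenius map -/
theorem maink_aeval (F K : Type) [Field F] [Finite F] [Field K] [Algebra F K] (n : ℕ) {τ : Type}
    (x : τ → K) (f : MvPolynomial τ F) :
    aeval (fun i => x i ^ (Nat.card F ^ n)) f = (aeval x f) ^ (Nat.card F ^ n) := by
  obtain ⟨φ, hφ⟩ := maink_frob F K n
  rw [← hφ, comp_aeval_apply]
  congr 2
  funext i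
  exact (hφ (x i)).symm

theorem maink_Pts {F K : Type} [Field F] [Finite F] [Field K] [Algebra F K] (n : ℕ) {N : ℕ}
    {ι : Type} (P : ι → MvPolynomial (Fin N) F) (T : Set (Set ι)) (x : Fin N → K) :
    (fun i => x i ^ (Nat.card F ^ n)) ∈ Pts P T K ↔ x ∈ Pts P T K := by
  have hq : Nat.card F ^ n ≠ 0 := pow_ne_zero _ Nat.card_pos.ne'
  change {i | aeval (fun i => x i ^ (Nat.card F ^ n)) (P i) = 0} ∈ T ↔ {i | aeval x (P i) = 0} ∈ T
  have : {i | aeval (fun i => x i ^ (Nat.card F ^ n)) (P i) = 0} = {i | aeval x (P i) = 0} := by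
    ext i
    rw [Set.mem_setOf_eq, Set.mem_setOf_eq, maink_aeval F K n x (P i)]
    exact pow_eq_zero_iff hq
  rw [this]

theorem maink_Inc {F K : Type} [Field F] [Finite F] [Field K] [Algebra F K] (n : ℕ) {N M : ℕ}
    {μ : Type} (R : μ → MvPolynomial (Fin N ⊕ Fin M) F) (W : Set (Set μ)) (x : Fin N → K)
    (y : Fin M → K) :
    Inc R W (fun i => x i ^ (Nat.card F ^ n)) (fun i => y i ^ (Nat.card F ^ n)) ↔ Inc R W x y := by
  have hq : Nat.card F ^ n ≠ 0 := pow_ne_zero _ Nat.card_pos.ne'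
  unfold Inc
  have : {i | aeval (Sum.elim (fun i => x i ^ (Nat.card F ^ n)) (fun i => y i ^ (Nat.card F ^ n)))
      (R i) = 0} = {i | aeval (Sum.elim x y) (R i) = 0} := by
    ext i
    rw [Set.mem_setOf_eq, Set.mem_setOf_eq]
    have h1 : (Sum.elim (fun i => x i ^ (Nat.card F ^ n)) (fun i => y i ^ (Nat.card F ^ n))) =
        fun j => (Sum.elim x y j) ^ (Nat.card F ^ n) := by
      funext j
      cases j <;> rfl
    rw [h1, maink_aeval F K n (Sum.elim x y) (R i)]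
    exact pow_eq_zero_iff hq
  rw [this]

theorem maink_iter {K : Type} [Field K] (q a b : ℕ) (z : K) (h : z ^ (q ^ a) = z) :
    z ^ (q ^ (a * b)) = z := by
  induction b with
  | zero => simp
  | succ b ih => rw [Nat.mul_succ, pow_add, pow_mul, ih, h]

/-- the fixed points of the involution -/
theorem maink_fix {K : Type} [Field K] {N : ℕ} (q n : ℕ) (V : Set (Fin N → K)) :
    {x | x ∈ fx q (2 * n) V ∧ (fun i => x i ^ (q ^ n)) = x} = fx q n V := by
  ext x
  constructor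
  · rintro ⟨⟨h1, _⟩, h3⟩
    exact ⟨h1, fun i => congrFun h3 i⟩
  · rintro ⟨h1, h2⟩
    refine ⟨⟨h1, fun i => ?_⟩, funext h2⟩
    rw [mul_comm]
    exact maink_iter q n 2 (x i) (h2 i)

theorem st_MAINK (h1 : ST_COMB) (h2 : ST_BLOCK) (h3 : ST_GROW) : ST_MAINK := by
  intro F K _ _ _ _ _ _ N M ι κ μ _ _ _ P T Q U R W l m hl hm hdes
  by_contra hinf
  change (Pts P T K).Infinite at hinf
  obtain ⟨p, hp⟩ := CharP.exists F
  haveI : Fact p.Prime := ⟨CharP.char_is_prime F p⟩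
  -- a block
  obtain ⟨_, _, hc0, k0, hk0, _⟩ := hdes m hm dvd_rfl
  have hY : (fx (Nat.card F) m (Pts Q U K)).Nonempty := by
    rw [Set.nonempty_iff_ne_empty]
    intro he
    rw [he, Set.ncard_empty] at hc0
    omega
  obtain ⟨y, hyQ, hyf⟩ := hY
  obtain ⟨c, hc⟩ := h2 p F K N M ι μ P T R W m y hm hyf
  -- the modulus
  set D : ℤ := (c - 1) ^ 2 + l - c with hD
  have hD0 : 0 < D := by
    have h4 : (0 : ℤ) ≤ (c - 1) * (c - 2) := by
      rcases le_or_gt c 1 with h | h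
      · nlinarith
      · nlinarith
    have h5 : (2 : ℤ) ≤ l := by exact_mod_cast hl
    rw [hD]
    nlinarith
  obtain ⟨A, hA0, hA⟩ := hc D.toNat
  obtain ⟨n, hn0, hMn, x, hxP, hx2, hxn⟩ := h3 F K N ι P T hinf (m * A) (Nat.mul_pos hm hA0)
  have hmn : m ∣ n := (Dvd.intro _ rfl).trans hMn
  have hAn : A ∣ n := (Dvd.intro_left _ rfl).trans hMn
  have hm2 : m ∣ 2 * n := hmn.mul_left 2
  have hA2 : A ∣ 2 * n := hAn.mul_left 2
  have hn2 : 0 < 2 * n := by omega
  have hyn : ∀ j, y j ^ (Nat.card F ^ n) = y j := by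
    intro j
    obtain ⟨b, rfl⟩ := hmn
    exact maink_iter _ m b (y j) (hyf j)
  have hy2 : ∀ j, y j ^ (Nat.card F ^ (2 * n)) = y j := by
    intro j
    rw [mul_comm]
    exact maink_iter _ n 2 (y j) (hyn j)
  have hmap : ∀ {L : ℕ} {ν : Type} (P' : ν → MvPolynomial (Fin L) F) (T' : Set (Set ν)),
      ∀ z ∈ fx (Nat.card F) (2 * n) (Pts P' T' K),
        (fun i => z i ^ (Nat.card F ^ n)) ∈ fx (Nat.card F) (2 * n) (Pts P' T' K) := by
    intro L ν P' T' z hz
    refine ⟨(maink_Pts n P' T' z).2 hz.1, fun i => ?_⟩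
    rw [← pow_mul, mul_comm, pow_mul, hz.2 i]
  have hinv : ∀ {L : ℕ} {V : Set (Fin L → K)}, ∀ z ∈ fx (Nat.card F) (2 * n) V,
      (fun i => (fun i => z i ^ (Nat.card F ^ n)) i ^ (Nat.card F ^ n)) = z := by
    intro L V z hz
    funext i
    have := hz.2 i
    rw [two_mul, pow_add, pow_mul] at this
    exact this
  have key := h1 (Fin N → K) (Fin M → K) (fx (Nat.card F) (2 * n) (Pts P T K))
    (fx (Nat.card F) (2 * n) (Pts Q U K)) (Inc R W) l (fun z i => z i ^ (Nat.card F ^ n))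
    (fun z i => z i ^ (Nat.card F ^ n)) (by omega) (hmap P T) (hmap Q U) hinv hinv
    (fun z _ w _ => maink_Inc n R W z w) (hdes (2 * n) hn2 hm2)
    (by
      rw [maink_fix, maink_fix]
      exact hdes n hn0 hmn)
    ⟨x, ⟨hxP, hx2⟩, fun h => hxn fun i => congrFun h i⟩ y ⟨hyQ, hy2⟩ (funext hyn)
  have e1 : {z | (z ∈ fx (Nat.card F) (2 * n) (Pts P T K) ∧
      (fun i => z i ^ (Nat.card F ^ n)) = z) ∧ Inc R W z y} =
      {z | z ∈ fx (Nat.card F) n (Pts P T K) ∧ Inc R W z y} := by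
    have := maink_fix (Nat.card F) n (Pts P T K)
    ext z
    rw [Set.mem_setOf_eq, Set.mem_setOf_eq, ← this]
    rfl
  rw [e1] at key
  have k1 := hA n hn0 hAn hmn
  have k2 := hA (2 * n) hn2 hA2 hm2
  rw [key] at k2
  obtain ⟨r, hr⟩ := k1
  obtain ⟨s, hs⟩ := k2
  have hdvd : (p : ℤ) ^ D.toNat ∣ D := by
    have hkk : (({z | z ∈ fx (Nat.card F) n (Pts P T K) ∧ Inc R W z y}.ncard : ℕ) : ℤ) =
        c + (p : ℤ) ^ D.toNat * r := by linarith
    rw [hkk] at hs
    refine ⟨s - 2 * (c - 1) * r - (p : ℤ) ^ D.toNat * r ^ 2, ?_⟩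
    rw [hD] at hs ⊢
    linear_combination hs
  have hle := Int.le_of_dvd hD0 hdvd
  have hlt : (D.toNat : ℤ) < (p : ℤ) ^ D.toNat := by
    exact_mod_cast Nat.lt_pow_self (Fact.out : p.Prime).one_lt
  rw [Int.toNat_of_nonneg hD0.le] at hlt
  linarith

end Pool.Agent.Helper92.AH
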