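import Pool.Agent.Helper92.AH.Defs

/-!
# Module TRANSP: transport along an embedding `E → K`
-/

set_option autoImplicit false

namespace Pool.Agent.Helper92.AH

open MvPolynomial

/-- transport of a design along injections -/
theorem transp_design {α β α' β' : Type} (f : α → α') (g : β → β') (hf : Function.Injective f)
    (hg : Function.Injective g) (X : Set α) (Y : Set β) (I : α → β → Prop) (I' : α' → β' → Prop)
    (hI : ∀ x y, I' (f x) (g y) ↔ I x y) (l : ℕ) :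
    SymDesign X Y I l ↔ SymDesign (f '' X) (g '' Y) I' l := by
  have c1 : (f '' X).ncard = X.ncard := Set.ncard_image_of_injective X hf
  have c2 : (g '' Y).ncard = Y.ncard := Set.ncard_image_of_injective Y hg
  have c3 : ∀ y, {x' | x' ∈ f '' X ∧ I' x' (g y)}.ncard = {x | x ∈ X ∧ I x y}.ncard := by
    intro y
    rw [← Set.ncard_image_of_injective _ hf]
    congr 1
    ext x'
    constructor
    · rintro ⟨⟨x, hx, rfl⟩, h⟩
      exact ⟨x, ⟨hx, (hI x y).1 h⟩, rfl⟩
    · rintro ⟨x, ⟨hx, h⟩, rfl⟩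
      exact ⟨⟨x, hx, rfl⟩, (hI x y).2 h⟩
  have c4 : ∀ x₁ x₂, {y' | y' ∈ g '' Y ∧ I' (f x₁) y' ∧ I' (f x₂) y'}.ncard
      = {y | y ∈ Y ∧ I x₁ y ∧ I x₂ y}.ncard := by
    intro x₁ x₂
    rw [← Set.ncard_image_of_injective _ hg]
    congr 1
    ext y'
    constructor
    · rintro ⟨⟨y, hy, rfl⟩, h1, h2⟩
      exact ⟨y, ⟨hy, (hI x₁ y).1 h1, (hI x₂ y).1 h2⟩, rfl⟩
    · rintro ⟨y, ⟨hy, h1, h2⟩, rfl⟩
      exact ⟨⟨y, hy, rfl⟩, (hI x₁ y).2 h1, (hI x₂ y).2 h2⟩
  unfold SymDesign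
  rw [Set.finite_image_iff hf.injOn, Set.finite_image_iff hg.injOn, c1, c2]
  refine and_congr Iff.rfl (and_congr Iff.rfl (and_congr Iff.rfl ?_))
  constructor
  · rintro ⟨k, hk, hb, hp⟩
    refine ⟨k, hk, ?_, ?_⟩
    · rintro _ ⟨y, hy, rfl⟩
      rw [c3]
      exact hb y hy
    · rintro _ ⟨x₁, hx₁, rfl⟩ _ ⟨x₂, hx₂, rfl⟩ hne
      rw [c4]
      exact hp x₁ hx₁ x₂ hx₂ fun h => hne (by rw [h])
  · rintro ⟨k, hk, hb, hp⟩
    refine ⟨k, hk, ?_, ?_⟩
    · intro y hy
      rw [← c3]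
      exact hb (g y) ⟨y, hy, rfl⟩
    · intro x₁ hx₁ x₂ hx₂ hne
      rw [← c4]
      exact hp (f x₁) ⟨x₁, hx₁, rfl⟩ (f x₂) ⟨x₂, hx₂, rfl⟩ fun h => hne (hf h)

theorem transp_aeval {F K E τ : Type} [Field F] [Field K] [Algebra F K] [Field E]
    [Algebra F E] (φ : E →ₐ[F] K) (x : τ → E) (f : MvPolynomial τ F) :
    aeval (fun i => φ (x i)) f = 0 ↔ aeval x f = 0 := by
  rw [← comp_aeval_apply]
  exact map_eq_zero φ

theorem transp_image {F K E : Type} [Field F] [Finite F] [Field K] [Algebra F K] [Field E]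
    [Algebra F E] (φ : E →ₐ[F] K)
    (hφ : ∀ z : K, (∃ w, φ w = z) ↔ z ^ (Nat.card F ^ Module.finrank F E) = z) {N : ℕ} {ι : Type}
    (P : ι → MvPolynomial (Fin N) F) (T : Set (Set ι)) :
    (fun (x : Fin N → E) (i : Fin N) => φ (x i)) '' Pts P T E
      = fx (Nat.card F) (Module.finrank F E) (Pts P T K) := by
  have hP : ∀ x : Fin N → E, (fun i => φ (x i)) ∈ Pts P T K ↔ x ∈ Pts P T E := by
    intro x
    change {i | aeval (fun i => φ (x i)) (P i) = 0} ∈ T ↔ {i | aeval x (P i) = 0} ∈ T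
    have : {i | aeval (fun i => φ (x i)) (P i) = 0} = {i | aeval x (P i) = 0} := by
      ext i
      exact transp_aeval φ x (P i)
    rw [this]
  ext z
  constructor
  · rintro ⟨x, hx, rfl⟩
    exact ⟨(hP x).2 hx, fun i => (hφ _).1 ⟨x i, rfl⟩⟩
  · rintro ⟨h1, h2⟩
    have h3 : ∀ i, ∃ w, φ w = z i := fun i => (hφ _).2 (h2 i)
    choose w hw using h3
    have h4 : (fun i => φ (w i)) = z := funext hw
    refine ⟨w, ?_, h4⟩
    rw [← hP, h4]
    exact h1

theorem st_TRANSP (h1 : ST_FIELD) : ST_TRANSP := by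
  intro F K E _ _ _ _ _ _ _ _ N ι P T
  haveI : FiniteDimensional F E := Module.Finite.of_finite
  let φ : E →ₐ[F] K := IsAlgClosed.lift
  have hφ := h1.2 F K E φ
  have hinj : ∀ L : ℕ, Function.Injective (fun (x : Fin L → E) (i : Fin L) => φ (x i)) := by
    intro L x y h
    funext i
    exact φ.injective (congrFun h i)
  refine ⟨?_, ?_⟩
  · rw [← transp_image φ hφ P T, Set.ncard_image_of_injective _ (hinj N)]
  · intro M κ μ Q U R W l
    rw [← transp_image φ hφ P T, ← transp_image φ hφ Q U]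
    apply transp_design _ _ (hinj N) (hinj M)
    intro x y
    unfold Inc
    have : {i | aeval (Sum.elim (fun i => φ (x i)) (fun i => φ (y i))) (R i) = 0}
        = {i | aeval (Sum.elim x y) (R i) = 0} := by
      ext i
      rw [Set.mem_setOf_eq, Set.mem_setOf_eq, ← transp_aeval φ (Sum.elim x y) (R i)]
      have h2 : Sum.elim (fun i => φ (x i)) (fun i => φ (y i)) = fun j => φ (Sum.elim x y j) := by
        funext j
        cases j <;> rfl
      rw [h2]
    rw [this]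

end Pool.Agent.Helper92.AH
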